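import Pool.Agent.N931.PN.Stm5
import Pool.Agent.N279.PN.P2B
import Pool.Agent.N692.PN.BKH

/-!
Project PN (helper931), part CH (helper853): two layers, long excursions behind a block, all scales.
-/

set_option autoImplicit false

namespace Pool.Agent.N853.PN.CH

open H974 H12S H389NS H984N H984P H342P Finset
open Pool.Agent.N116.EW
open Pool.Agent.N931.PN
open Pool.Agent.N279.PN.P2B (XX XX_loc NX_loc blk_sub blk_mono)

/-! ## Locality -/

/-- `E` depends only on the edges of `U`. -/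
def Lc (S U : Finset Edg) (E : Finset Edg → Prop) : Prop := ∀ F, F ⊆ S → (E F ↔ E (F ∩ U))

theorem Lc.mono {S U U' : Finset Edg} {E : Finset Edg → Prop} (h : Lc S U E) (hU : U ⊆ U') :
    Lc S U' E := by
  intro F hF
  have h1 := h F hF
  have h2 := h (F ∩ U') (Finset.inter_subset_left.trans hF)
  have h3 : F ∩ U' ∩ U = F ∩ U := by
    rw [Finset.inter_assoc, Finset.inter_eq_right.2 hU]
  rw [h1, h2, h3]

theorem Lc.edges {S U : Finset Edg} {E : Finset Edg → Prop} (h : Lc S U E) :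
    ∀ F, F ⊆ S → (E F ↔ E (F ∩ (S ∩ U))) := by
  intro F hF
  have h3 : F ∩ (S ∩ U) = F ∩ U := by
    rw [← Finset.inter_assoc, Finset.inter_eq_left.2 hF]
  rw [h3]
  exact h F hF

theorem Lc.true (S U : Finset Edg) : Lc S U (fun _ => True) := fun _ _ => Iff.rfl

theorem Lc.and {S U V : Finset Edg} {A B : Finset Edg → Prop} (hA : Lc S U A) (hB : Lc S V B) :
    Lc S (U ∪ V) (fun F => A F ∧ B F) := by
  intro F hF
  have h1 := (hA.mono (Finset.subset_union_left (s₂ := V))) F hF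
  have h2 := (hB.mono (Finset.subset_union_right (s₁ := U))) F hF
  exact and_congr h1 h2

theorem two {S U T : Finset Edg} {ρ : Edg → ℝ} (hd : Disjoint U T) {A B : Finset Edg → Prop}
    (hA : Lc S U A) (hB : Lc S T B) :
    P2 ρ S (fun F => A F ∧ B F) (fun F => A F ∧ B F) = P2 ρ S A A * P2 ρ S B B :=
  H389NS.P2_indep Finset.inter_subset_left Finset.inter_subset_left
    (hd.mono Finset.inter_subset_right Finset.inter_subset_right) hA.edges hA.edges hB.edges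
    hB.edges

theorem oE_loc (z : Vtx) (d R : ℕ) (F : Finset Edg) : oE z d R (F ∩ AN z d R) = oE z d R F := by
  ext e
  unfold oE
  simp only [Set.mem_inter_iff, Finset.mem_coe, Finset.mem_inter]
  tauto

theorem cE_loc (D : Dm) (z : Vtx) (d R : ℕ) (F : Finset Edg) :
    cE D z d R (F ∩ AN z d R) = cE D z d R F := by
  ext e
  unfold cE
  simp only [Set.mem_ofPred_eq, Finset.mem_inter]
  tauto

theorem YO_lc (D : Dm) (z : Vtx) (d R : ℕ) : Lc D.edges (AN z d R) (YO D z d R) := by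
  intro F _
  unfold YO
  rw [oE_loc]

theorem YD_lc (D : Dm) (z : Vtx) (d R : ℕ) : Lc D.edges (AN z d R) (YD D z d R) := by
  intro F _
  unfold YD
  rw [cE_loc]

theorem OAr_lc (D : Dm) (z : Vtx) (d R : ℕ) : Lc D.edges (AN z d R) (OAr z d R) := by
  intro F _
  unfold OAr
  rw [oE_loc]

theorem DAr_lc (D : Dm) (z : Vtx) (d R : ℕ) : Lc D.edges (AN z d R) (DAr D z d R) := by
  intro F _
  unfold DAr
  rw [cE_loc]

/-! ## Geometry -/

theorem sd_eq (u v : Vtx) : sd u v =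
    max (max (u.1 - v.1) (v.1 - u.1)) (max (u.2 - v.2) (v.2 - u.2)) := by
  unfold sd
  rw [abs_eq_max_neg, abs_eq_max_neg, neg_sub, neg_sub]

theorem bd_nonneg {D : Dm} {z : Vtx} (hz : inR D.l D.r 0 D.h z) : 0 ≤ D.bd z := by
  obtain ⟨⟨z1, z2⟩, z3, z4⟩ := hz
  unfold Dm.bd
  omega

theorem bd_le_qd {D : Dm} (ok : D.Ok) {z : Vtx} (hz : inR D.l D.r 0 D.h z) : D.bd z ≤ qd D z := by
  obtain ⟨⟨z1, z2⟩, z3, z4⟩ := hz
  obtain ⟨o1, o2, o3, o4, o5⟩ := ok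
  unfold qd
  simp only [sd_eq, le_min_iff]
  unfold Dm.bd
  refine ⟨⟨⟨?_, ?_⟩, ?_, ?_⟩, ?_, ?_⟩ <;> omega

theorem qd_pt (D : Dm) (z : Vtx) : ∃ i : Fin 6, sd z (pts D i) = qd D z := by
  unfold qd
  rcases min_choice (min (min (sd z (D.l, 0)) (sd z (D.r, 0)))
    (min (sd z (D.l, D.h)) (sd z (D.r, D.h)))) (min (sd z (D.t, D.h)) (sd z (0, 0))) with h | h <;>
    rw [h]
  · rcases min_choice (min (sd z (D.l, 0)) (sd z (D.r, 0)))
      (min (sd z (D.l, D.h)) (sd z (D.r, D.h))) with h | h <;> rw [h]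
    · rcases min_choice (sd z (D.l, 0)) (sd z (D.r, 0)) with h | h <;> rw [h]
      · exact ⟨0, rfl⟩
      · exact ⟨1, rfl⟩
    · rcases min_choice (sd z (D.l, D.h)) (sd z (D.r, D.h)) with h | h <;> rw [h]
      · exact ⟨2, rfl⟩
      · exact ⟨3, rfl⟩
  · rcases min_choice (sd z (D.t, D.h)) (sd z (0, 0)) with h | h <;> rw [h]
    · exact ⟨4, rfl⟩
    · exact ⟨5, rfl⟩

theorem blk_shift {z p : Vtx} {d R : ℕ} (h : sd z p + d ≤ R) : blk z d ⊆ blk p R := by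
  rw [sd_eq] at h
  unfold blk
  exact H974.RE_subset (by omega) (by omega) (by omega) (by omega)

theorem AN_sub {z : Vtx} {d R : ℕ} : AN z d R ⊆ blk z R := Finset.sdiff_subset

/-! ## Numbers -/

theorem one_le {K a b s : ℝ} (hK : 0 ≤ K) (ha : 0 < a) (hb : 0 < b) (hs : 0 ≤ s)
    (h : b ≤ K * a) : 1 ≤ K ^ s * (a / b) ^ s := by
  rw [← Real.mul_rpow hK (by positivity)]
  refine Real.one_le_rpow ?_ hs
  rw [mul_div_assoc', le_div_iff₀ hb]
  linarith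

theorem scale {L a b m s : ℝ} (hL : 0 ≤ L) (ha : 0 < a) (hb : 0 < b) (hm : 0 < m) (hs : 0 ≤ s)
    (h : m ≤ L * b) : (a / b) ^ s ≤ L ^ s * (a / m) ^ s := by
  rw [← Real.mul_rpow hL (by positivity)]
  refine Real.rpow_le_rpow (by positivity) ?_ hs
  rw [mul_div_assoc', div_le_div_iff₀ hb hm]
  nlinarith

theorem noise_mono {x : ℝ} (hx : x < 1) {r R : ℕ} (h : r ≤ R)
    (h1 : 1 ≤ (1 - x) * (r : ℝ) ^ (3 / 4 : ℝ)) : 1 ≤ (1 - x) * (R : ℝ) ^ (3 / 4 : ℝ) := by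
  refine h1.trans (mul_le_mul_of_nonneg_left ?_ (by linarith))
  exact Real.rpow_le_rpow (by positivity) (by exact_mod_cast h) (by norm_num)

theorem hok : H974.Ok (fun _ : Edg => (1 / 2 : ℝ)) := fun _ => by norm_num

theorem P2_le_one {x : ℝ} (h0 : 0 ≤ x) (h1 : x < 1) (S : Finset Edg) (A B : Finset Edg → Prop) :
    P2 (fun _ => x) S A B ≤ 1 :=
  (P2_le_Pr (fun _ _ => ⟨h0, h1.le⟩) A B).trans (Pr_le_one hok S A)

/-! ## The three factors -/

theorem inner (hV : S_LGV) (hW : S_LGW) (hP4 : S_P4) : ∃ C : ℝ, 0 < C ∧ ∀ D : Dm, D.Ok →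
    ∀ (z : Vtx) (B : Finset Edg) (r ρ : ℕ), 1 ≤ r → B ⊆ blk z r → d1 D r z ≤ ρ →
    ∀ x : ℝ, 0 ≤ x → x < 1 → 1 ≤ (1 - x) * (r : ℝ) ^ (3 / 4 : ℝ) →
    ∃ E : Finset Edg → Prop, Lc D.edges (blk z (d1 D r z)) E ∧
      (∀ F, F ⊆ D.edges → LG D B ρ F → E F) ∧
      P2 (fun _ => x) D.edges E E ≤ C * ((r : ℝ) / d1 D r z) ^ (5 / 2 : ℝ) := by
  obtain ⟨C4, hC4, h4⟩ := hP4
  refine ⟨64 ^ (5 / 2 : ℝ) + C4 * 8 ^ (5 / 2 : ℝ), by positivity, ?_⟩
  intro D hD z B r ρ hr hB hρ x hx0 hx1 hx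
  have hr0 : (0 : ℝ) < r := by exact_mod_cast hr
  have hrd : r ≤ d1 D r z := le_max_left _ _
  have hd0 : (0 : ℝ) < d1 D r z := by exact_mod_cast (by omega : 0 < d1 D r z)
  have hnn : 0 ≤ ((r : ℝ) / d1 D r z) ^ (5 / 2 : ℝ) := by positivity
  by_cases h : 64 * r ≤ d1 D r z
  · have hbd : ((d1 D r z : ℕ) : ℤ) = D.bd z := by
      unfold d1 at h ⊢
      omega
    generalize d1 D r z = m at *
    have hRm : m / 4 ≤ m := by omega
    have hdR : r + 8 ≤ m / 4 := by omega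
    have hAN : AN z r (m / 4) ⊆ D.edges := AN_sub.trans (blk_sub (by omega))
    refine ⟨XX z r (m / 4), ?_, ?_, ?_⟩
    · exact Lc.mono (U := AN z r (m / 4)) (fun F _ => XX_loc z r _ F) (AN_sub.trans (blk_mono hRm))
    · intro F hF hL
      rcases hL with hL | hL
      · exact Or.inl (hV D hD F B hF z r (m / 4) ρ hr hdR (by omega) (by omega) hB hL)
      · exact Or.inr (hW D hD F B hF z r (m / 4) ρ hr hdR (by omega) (by omega) hB hL)
    · have h1 := h4 D.edges z r (m / 4) hr hdR hAN x hx0 hx1 hx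
      have h2 : ((r : ℝ) / ((m / 4 : ℕ) : ℝ)) ^ (5 / 2 : ℝ) ≤ 8 ^ (5 / 2 : ℝ) *
          ((r : ℝ) / m) ^ (5 / 2 : ℝ) := by
        refine scale (by norm_num) hr0 ?_ hd0 (by norm_num) ?_
        · exact_mod_cast (by omega : 0 < m / 4)
        · exact_mod_cast (by omega : m ≤ 8 * (m / 4))
      have h3 := mul_le_mul_of_nonneg_left h2 hC4.le
      have h5 : 0 ≤ (64 : ℝ) ^ (5 / 2 : ℝ) * ((r : ℝ) / m) ^ (5 / 2 : ℝ) := by positivity
      refine (h1.trans h3).trans ?_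
      rw [add_mul]
      linarith
  · refine ⟨fun _ => True, Lc.true _ _, fun _ _ _ => trivial, ?_⟩
    refine (P2_le_one hx0 hx1 _ _ _).trans ?_
    have h1 : 1 ≤ (64 : ℝ) ^ (5 / 2 : ℝ) * ((r : ℝ) / d1 D r z) ^ (5 / 2 : ℝ) := by
      refine one_le (by norm_num) hr0 hd0 (by norm_num) ?_
      exact_mod_cast (by omega : d1 D r z ≤ 64 * r)
    have h5 : 0 ≤ C4 * 8 ^ (5 / 2 : ℝ) * ((r : ℝ) / d1 D r z) ^ (5 / 2 : ℝ) := by positivity
    rw [add_mul]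
    linarith

theorem middle (hSI : S_SIDE) (hVF : S_VF2) (hWF : S_WF2) (hVW : S_VW2) (hWW : S_WW2)
    (hY : S_Y2) : ∀ κ : ℝ, 0 < κ → ∃ C : ℝ, 0 < C ∧ ∀ (n : ℝ) (D : Dm), 1 ≤ n →
    D.Shape κ n → ∀ (z : Vtx) (B : Finset Edg) (r ρ m : ℕ), inR D.l D.r 0 D.h z → 1 ≤ r →
    B ⊆ blk z r → d1 D r z ≤ m → m ≤ ρ → m ≤ d2 D r z →
    ∀ x : ℝ, 0 ≤ x → x < 1 → 1 ≤ (1 - x) * (r : ℝ) ^ (3 / 4 : ℝ) →
    ∃ E : Finset Edg → Prop, Lc D.edges (blk z (d2 D r z) \ blk z (d1 D r z)) E ∧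
      (∀ F, F ⊆ D.edges → LG D B ρ F → E F) ∧
      P2 (fun _ => x) D.edges E E ≤ C * ((d1 D r z : ℝ) / m) ^ (11 / 6 : ℝ) := by
  intro κ hκ
  obtain ⟨cS, hcS, hSI⟩ := hSI κ hκ
  obtain ⟨CY, cY, hCY, hcY, hY⟩ := hY κ hκ
  obtain ⟨c, hc⟩ : ∃ c : ℝ, c = min (min cS cY) (1 / 4) := ⟨_, rfl⟩
  have hc0 : 0 < c := by rw [hc]; exact lt_min (lt_min hcS hcY) (by norm_num)
  have hcS' : c ≤ cS := by rw [hc]; exact (min_le_left _ _).trans (min_le_left _ _)
  have hcY' : c ≤ cY := by rw [hc]; exact (min_le_left _ _).trans (min_le_right _ _)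
  have hc4 : c ≤ 1 / 4 := by rw [hc]; exact min_le_right _ _
  refine ⟨(6 / c) ^ (11 / 6 : ℝ) + CY * (2 / c) ^ (11 / 6 : ℝ), by positivity, ?_⟩
  intro n D hn hS z B r ρ m hz hr hB hm hmρ hm2 x hx0 hx1 hx
  have hrd : r ≤ d1 D r z := le_max_left _ _
  have hbd : D.bd z ≤ d1 D r z := by
    have := bd_nonneg hz
    unfold d1
    omega
  have hm0 : (0 : ℝ) < m := by exact_mod_cast (by omega : 0 < m)
  have hd0 : (0 : ℝ) < d1 D r z := by exact_mod_cast (by omega : 0 < d1 D r z)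
  by_cases h : 6 / c * d1 D r z ≤ (m : ℝ)
  · have h1 : 6 * (d1 D r z : ℝ) ≤ c * m := by
      rw [div_mul_eq_mul_div, div_le_iff₀ hc0] at h
      linarith
    obtain ⟨R, hR⟩ : ∃ R : ℕ, R = ⌊c * (m : ℝ)⌋₊ := ⟨_, rfl⟩
    have hR1 : (R : ℝ) ≤ c * m := by rw [hR]; exact Nat.floor_le (by positivity)
    have hR2 : c * m < R + 1 := by rw [hR]; exact Nat.lt_floor_add_one _
    have hR3 : 6 * d1 D r z ≤ R := by
      have : (6 * d1 D r z : ℝ) < R + 1 := by linarith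
      have h2 : 6 * d1 D r z < R + 1 := by exact_mod_cast this
      omega
    have hR4 : 4 * R ≤ m := by
      have : (4 : ℝ) * R ≤ m := by nlinarith
      exact_mod_cast this
    have hq : ((m : ℕ) : ℤ) ≤ qd D z := by
      have h3 : r < m := by omega
      unfold d2 at hm2
      omega
    have hq' : (m : ℝ) ≤ qd D z := by exact_mod_cast hq
    have hqS : (R : ℝ) ≤ cS * qd D z :=
      hR1.trans (mul_le_mul hcS' hq' hm0.le hcS.le)
    have hqY : (R : ℝ) ≤ cY * qd D z :=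
      hR1.trans (mul_le_mul hcY' hq' hm0.le hcY.le)
    obtain ⟨hN, hfar⟩ := hSI n D hn hS z (d1 D r z) R hz (by omega) hbd (by omega) hqS
    obtain ⟨hYO, hYD⟩ := hY n D hn hS z (d1 D r z) R hz (by omega) hbd (by omega) hqY x hx0 hx1
      (noise_mono hx1 hrd hx)
    have hB1 : B ⊆ blk z (d1 D r z) := hB.trans (blk_mono hrd)
    have hsub : AN z (d1 D r z) R ⊆ blk z (d2 D r z) \ blk z (d1 D r z) :=
      Finset.sdiff_subset_sdiff (blk_mono (by omega)) le_rfl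
    have hR0 : (0 : ℝ) < R := by exact_mod_cast (by omega : 0 < R)
    have hfin : CY * ((d1 D r z : ℝ) / R) ^ (11 / 6 : ℝ) ≤
        ((6 / c) ^ (11 / 6 : ℝ) + CY * (2 / c) ^ (11 / 6 : ℝ)) *
          ((d1 D r z : ℝ) / m) ^ (11 / 6 : ℝ) := by
      have h2 : ((d1 D r z : ℝ) / R) ^ (11 / 6 : ℝ) ≤ (2 / c) ^ (11 / 6 : ℝ) *
          ((d1 D r z : ℝ) / m) ^ (11 / 6 : ℝ) := by
        refine scale (by positivity) hd0 hR0 hm0 (by norm_num) ?_
        rw [div_mul_eq_mul_div, le_div_iff₀ hc0]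
        have : (1 : ℝ) ≤ R := by exact_mod_cast (by omega : 1 ≤ R)
        linarith
      have h3 := mul_le_mul_of_nonneg_left h2 hCY.le
      have h5 : 0 ≤ (6 / c) ^ (11 / 6 : ℝ) * ((d1 D r z : ℝ) / m) ^ (11 / 6 : ℝ) := by positivity
      refine h3.trans ?_
      rw [add_mul]
      linarith
    rcases hfar with hfar | hfar
    · refine ⟨YD D z (d1 D r z) R, (YD_lc D z _ R).mono hsub, ?_, hYD.trans hfin⟩
      intro F hF hL
      rcases hL with hL | hL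
      · exact hVF D hS.ok F B hF z _ R ρ hN (by omega) (by omega) (by omega) hB1 hfar hL
      · exact hWF D hS.ok F B hF z _ R ρ hN (by omega) (by omega) (by omega) hB1 hfar hL
    · refine ⟨YO D z (d1 D r z) R, (YO_lc D z _ R).mono hsub, ?_, hYO.trans hfin⟩
      intro F hF hL
      rcases hL with hL | hL
      · exact hVW D hS.ok F B hF z _ R ρ hN (by omega) (by omega) (by omega) hB1 hfar hL
      · exact hWW D hS.ok F B hF z _ R ρ hN (by omega) (by omega) (by omega) hB1 hfar hL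
  · push Not at h
    refine ⟨fun _ => True, Lc.true _ _, fun _ _ _ => trivial, ?_⟩
    refine (P2_le_one hx0 hx1 _ _ _).trans ?_
    have h1 : 1 ≤ (6 / c) ^ (11 / 6 : ℝ) * ((d1 D r z : ℝ) / m) ^ (11 / 6 : ℝ) :=
      one_le (by positivity) hd0 hm0 (by norm_num) h.le
    have h5 : 0 ≤ CY * (2 / c) ^ (11 / 6 : ℝ) * ((d1 D r z : ℝ) / m) ^ (11 / 6 : ℝ) := by
      positivity
    rw [add_mul]
    linarith

theorem outer (hCD : S_CD) (hCE : S_CE1) (hEV : S_EV) (hEW : S_EW) (hA : S_A1E) :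
    ∀ κ : ℝ, 0 < κ → ∃ C : ℝ, 0 < C ∧ ∀ (n : ℝ) (D : Dm), 1 ≤ n →
    D.Shape κ n → FarP D κ n → ∀ (z : Vtx) (B : Finset Edg) (r ρ : ℕ), 1 ≤ r →
    B ⊆ blk z r → d2 D r z ≤ ρ → (ρ : ℝ) ≤ n → ∀ x : ℝ, 0 ≤ x → x < 1 →
    ∃ (E : Finset Edg → Prop) (U : Finset Edg), Disjoint (blk z (d2 D r z)) U ∧
      Lc D.edges U E ∧ (∀ F, F ⊆ D.edges → LG D B ρ F → E F) ∧
      P2 (fun _ => x) D.edges E E ≤ C * ((d2 D r z : ℝ) / ρ) ^ (2 / 3 : ℝ) := by
  intro κ hκ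
  obtain ⟨CE, cE', hCE0, hcE, hCE⟩ := hCE κ hκ
  obtain ⟨CA, cA, hCA0, hcA, hA⟩ := hA κ hκ
  obtain ⟨c, hc⟩ : ∃ c : ℝ, c = min (min cE' cA) (min (1 / 4) (κ / 16)) := ⟨_, rfl⟩
  have hc0 : 0 < c := by
    rw [hc]; exact lt_min (lt_min hcE hcA) (lt_min (by norm_num) (by positivity))
  have hcE' : c ≤ cE' := by rw [hc]; exact (min_le_left _ _).trans (min_le_left _ _)
  have hcA' : c ≤ cA := by rw [hc]; exact (min_le_left _ _).trans (min_le_right _ _)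
  have hc4 : c ≤ 1 / 4 := by rw [hc]; exact (min_le_right _ _).trans (min_le_left _ _)
  have hcκ : c ≤ κ / 16 := by rw [hc]; exact (min_le_right _ _).trans (min_le_right _ _)
  refine ⟨(24 / c) ^ (2 / 3 : ℝ) + (2 * CE + CA ^ 2) * (6 / c) ^ (2 / 3 : ℝ), by positivity, ?_⟩
  intro n D hn hS hFar z B r ρ hr hB hρ hρn x hx0 hx1
  have hρ' : ∀ e ∈ D.edges, 0 ≤ (fun _ : Edg => x) e ∧ (fun _ : Edg => x) e ≤ 1 :=
    fun _ _ => ⟨hx0, hx1.le⟩
  have hrd : r ≤ d2 D r z := le_max_left _ _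
  have hqd : qd D z ≤ d2 D r z := by
    unfold d2
    omega
  have hρ0 : (0 : ℝ) < ρ := by exact_mod_cast (by omega : 0 < ρ)
  have hd0 : (0 : ℝ) < d2 D r z := by exact_mod_cast (by omega : 0 < d2 D r z)
  generalize d2 D r z = m at *
  by_cases h : 24 / c * m ≤ (ρ : ℝ)
  · have h1 : 24 * (m : ℝ) ≤ c * ρ := by
      rw [div_mul_eq_mul_div, div_le_iff₀ hc0] at h
      linarith
    obtain ⟨R, hR⟩ : ∃ R : ℕ, R = ⌊c * (ρ : ℝ)⌋₊ := ⟨_, rfl⟩
    have hR1 : (R : ℝ) ≤ c * ρ := by rw [hR]; exact Nat.floor_le (by positivity)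
    have hR2 : c * ρ < R + 1 := by rw [hR]; exact Nat.lt_floor_add_one _
    have hR3 : 24 * m ≤ R := by
      have : (24 * m : ℝ) < R + 1 := by linarith
      have h2 : 24 * m < R + 1 := by exact_mod_cast this
      omega
    have hR4 : 4 * R ≤ ρ := by
      have : (4 : ℝ) * R ≤ ρ := by nlinarith
      exact_mod_cast this
    have hm1 : 1 ≤ m := by omega
    obtain ⟨i, hi⟩ := qd_pt D z
    have hRn : (R : ℝ) ≤ c * n := hR1.trans (mul_le_mul_of_nonneg_left hρn hc0.le)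
    have hn0 : 0 ≤ n := by linarith
    have hRE : (R : ℝ) ≤ cE' * n := hRn.trans (mul_le_mul_of_nonneg_right hcE' hn0)
    have hRA : (R : ℝ) ≤ cA * n := hRn.trans (mul_le_mul_of_nonneg_right hcA' hn0)
    have hB1 : B ⊆ blk (pts D i) (3 * m) := hB.trans (blk_shift (by push_cast; omega))
    have hdis : Disjoint (blk z m) (AN (pts D i) (3 * m) R) := by
      have h2 : blk z m ⊆ blk (pts D i) (3 * m) := blk_shift (by push_cast; omega)
      rw [Finset.disjoint_left]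
      intro e he he'
      exact (Finset.mem_sdiff.1 he').2 (h2 he)
    have hR0 : (0 : ℝ) < R := by exact_mod_cast (by omega : 0 < R)
    have hsc : (((3 * m : ℕ) : ℝ) / R) ^ (2 / 3 : ℝ) ≤ (6 / c) ^ (2 / 3 : ℝ) *
          ((m : ℝ) / ρ) ^ (2 / 3 : ℝ) := by
      rw [← Real.mul_rpow (by positivity) (by positivity)]
      refine Real.rpow_le_rpow (by positivity) ?_ (by norm_num)
      push_cast
      rw [div_mul_div_comm, div_le_div_iff₀ hR0 (by positivity)]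
      have : (1 : ℝ) ≤ R := by exact_mod_cast (by omega : 1 ≤ R)
      have h2 : c * ρ ≤ 2 * R := by linarith
      have h3 := mul_le_mul_of_nonneg_left h2 (by positivity : (0 : ℝ) ≤ 3 * m)
      nlinarith
    have hnn : 0 ≤ (24 / c) ^ (2 / 3 : ℝ) * ((m : ℝ) / ρ) ^ (2 / 3 : ℝ) := by positivity
    have hnn2 : 0 ≤ (6 / c) ^ (2 / 3 : ℝ) * ((m : ℝ) / ρ) ^ (2 / 3 : ℝ) := by positivity
    by_cases hi4 : (i : ℕ) < 4
    · refine ⟨fun F => OAr (pts D i) (3 * m) R F ∨ DAr D (pts D i) (3 * m) R F,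
        AN (pts D i) (3 * m) R, hdis, ?_, ?_, ?_⟩
      · intro F hF
        exact or_congr (OAr_lc D _ _ _ F hF) (DAr_lc D _ _ _ F hF)
      · intro F hF hL
        have h2 := hCD D hS.ok F B hF (pts D i) (3 * m) R ρ (by omega) (by omega) (by omega) hB1
        rcases hL with hL | hL
        · exact Or.inl (h2.1 hL)
        · exact Or.inr (h2.2 hL)
      · obtain ⟨k1, k2⟩ := hCE n D hn hS i hi4 (3 * m) R (by omega) (by omega) hRE
        have k3 := P2_le_Pr hρ' (fun F => OAr (pts D i) (3 * m) R F ∨ DAr D (pts D i) (3 * m) R F)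
          (fun F => OAr (pts D i) (3 * m) R F ∨ DAr D (pts D i) (3 * m) R F)
        have k4 := Pr_or_le hok D.edges (OAr (pts D i) (3 * m) R) (DAr D (pts D i) (3 * m) R)
        have k5 := mul_le_mul_of_nonneg_left hsc (by positivity : 0 ≤ 2 * CE)
        have k6 : 0 ≤ CA ^ 2 * ((6 / c) ^ (2 / 3 : ℝ) * ((m : ℝ) / ρ) ^ (2 / 3 : ℝ)) := by
          positivity
        calc _ ≤ _ := k3
          _ ≤ _ := k4
          _ ≤ CE * (((3 * m : ℕ) : ℝ) / R) ^ (2 / 3 : ℝ) +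
              CE * (((3 * m : ℕ) : ℝ) / R) ^ (2 / 3 : ℝ) := add_le_add k1 k2
          _ = 2 * CE * (((3 * m : ℕ) : ℝ) / R) ^ (2 / 3 : ℝ) := by ring
          _ ≤ _ := by
            rw [add_mul]
            linarith
    · push Not at hi4
      have hκn : 2 * (R : ℝ) + 8 ≤ κ * n := by
        have h2 : (24 : ℝ) ≤ R := by exact_mod_cast (by omega : 24 ≤ R)
        have h3 := mul_le_mul_of_nonneg_right hcκ hn0
        nlinarith
      have hsep : ∀ j : Fin 6, j ≠ i → 2 * (R : ℤ) + 8 ≤ sd (pts D i) (pts D j) := by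
        intro j hj
        have h2 := hκn.trans (hFar i j hj.symm)
        exact_mod_cast h2
      have hh : 2 * (R : ℤ) + 8 ≤ D.h := by
        have h2 := hκn.trans hS.h_ge
        exact_mod_cast h2
      refine ⟨fun F => OAr (pts D i) (3 * m) R F ∧ DAr D (pts D i) (3 * m) R F,
        AN (pts D i) (3 * m) R, hdis, ?_, ?_, ?_⟩
      · intro F hF
        exact and_congr (OAr_lc D _ _ _ F hF) (DAr_lc D _ _ _ F hF)
      · intro F hF hL
        rcases hL with hL | hL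
        · exact hEV D hS.ok F B hF i hi4 (3 * m) R ρ (by omega) (by omega) (by omega) hB1 hsep hh hL
        · exact hEW D hS.ok F B hF i hi4 (3 * m) R ρ (by omega) (by omega) (by omega) hB1 hsep hh hL
      · obtain ⟨k1, k2⟩ := hA n D hn hS hFar i hi4 (3 * m) R (by omega) (by omega) hRA
        have k3 := P2_le_Pr hρ' (fun F => OAr (pts D i) (3 * m) R F ∧ DAr D (pts D i) (3 * m) R F)
          (fun F => OAr (pts D i) (3 * m) R F ∧ DAr D (pts D i) (3 * m) R F)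
        have k4 : Pr hp D.edges
            (fun F => OAr (pts D i) (3 * m) R F ∧ DAr D (pts D i) (3 * m) R F) ≤
            Pr hp D.edges (OAr (pts D i) (3 * m) R) *
              Pr hp D.edges (DAr D (pts D i) (3 * m) R) := by
          refine Pr_harris_decr hok
            (fun F G h _ => Pool.Agent.N692.PN.BKH.OAr_mono h) ?_
          intro F G h _ h1 h2
          rw [Pool.Agent.N692.PN.BKH.DAr_iff] at h1 h2
          exact h1 (Pool.Agent.N692.PN.BKH.CAr_mono (Finset.sdiff_subset_sdiff le_rfl h) h2)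
        have e3 : (((3 * m : ℕ) : ℝ) / R) ^ (1 / 3 : ℝ) * (((3 * m : ℕ) : ℝ) / R) ^ (1 / 3 : ℝ) =
            (((3 * m : ℕ) : ℝ) / R) ^ (2 / 3 : ℝ) := by
          rw [← Real.rpow_add (by positivity)]
          norm_num
        have k5 := mul_le_mul_of_nonneg_left hsc (by positivity : 0 ≤ CA ^ 2)
        have k6 : 0 ≤ 2 * CE * ((6 / c) ^ (2 / 3 : ℝ) * ((m : ℝ) / ρ) ^ (2 / 3 : ℝ)) := by
          positivity
        have k7 : 0 ≤ Pr hp D.edges (DAr D (pts D i) (3 * m) R) := Pr_nonneg hok _ _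
        calc _ ≤ _ := k3
          _ ≤ _ := k4
          _ ≤ (CA * (((3 * m : ℕ) : ℝ) / R) ^ (1 / 3 : ℝ)) *
              (CA * (((3 * m : ℕ) : ℝ) / R) ^ (1 / 3 : ℝ)) :=
            mul_le_mul k1 k2 k7 (by positivity)
          _ = CA ^ 2 * ((((3 * m : ℕ) : ℝ) / R) ^ (1 / 3 : ℝ) *
              (((3 * m : ℕ) : ℝ) / R) ^ (1 / 3 : ℝ)) := by ring
          _ = CA ^ 2 * (((3 * m : ℕ) : ℝ) / R) ^ (2 / 3 : ℝ) := by rw [e3]
          _ ≤ _ := by
            rw [add_mul]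
            linarith
  · push Not at h
    refine ⟨fun _ => True, ∅, Finset.disjoint_empty_right _, Lc.true _ _, fun _ _ _ => trivial, ?_⟩
    refine (P2_le_one hx0 hx1 _ _ _).trans ?_
    have h1 : 1 ≤ (24 / c) ^ (2 / 3 : ℝ) * ((m : ℝ) / ρ) ^ (2 / 3 : ℝ) :=
      one_le (by positivity) hd0 hρ0 (by norm_num) h.le
    have h5 : 0 ≤ (2 * CE + CA ^ 2) * (6 / c) ^ (2 / 3 : ℝ) * ((m : ℝ) / ρ) ^ (2 / 3 : ℝ) := by
      positivity
    rw [add_mul]
    linarith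

/-! ## The bulk -/

theorem bulk (hV : S_LGV) (hW : S_LGW) (hP4 : S_P4) (hNB : S_NXB) (hN2 : S_NX2) :
    ∃ C : ℝ, 0 < C ∧ ∀ D : Dm, D.Ok → ∀ (z : Vtx) (B : Finset Edg) (r ρ : ℕ), 1 ≤ r → r ≤ ρ →
    B ⊆ blk z r → ρ ≤ d1 D r z →
    ∀ x : ℝ, 0 ≤ x → x < 1 → 1 ≤ (1 - x) * (r : ℝ) ^ (3 / 4 : ℝ) →
    P2 (fun _ => x) D.edges (LG D B ρ) (LG D B ρ) ≤
      C * (((r : ℝ) / ρ) ^ (5 / 2 : ℝ) * ((ρ : ℝ) / d1 D r z) ^ (1 / 2 : ℝ)) := by
  obtain ⟨C4, hC4, h4⟩ := hP4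
  obtain ⟨C2, hC2, h2⟩ := hN2
  refine ⟨1 + C2 * 64 ^ (5 / 2 : ℝ) + C4 * 8 ^ (5 / 2 : ℝ) * C2, by positivity, ?_⟩
  intro D hD z B r ρ hr hrρ hB hρ x hx0 hx1 hx
  have hρ' : ∀ e ∈ D.edges, 0 ≤ (fun _ : Edg => x) e ∧ (fun _ : Edg => x) e ≤ 1 :=
    fun _ _ => ⟨hx0, hx1.le⟩
  have hr0 : (0 : ℝ) < r := by exact_mod_cast hr
  have hρ0 : (0 : ℝ) < ρ := by exact_mod_cast (by omega : 0 < ρ)
  have hd0 : (0 : ℝ) < d1 D r z := by exact_mod_cast (by omega : 0 < d1 D r z)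
  have hn1 : 0 ≤ ((r : ℝ) / ρ) ^ (5 / 2 : ℝ) := by positivity
  have hn2 : 0 ≤ ((ρ : ℝ) / d1 D r z) ^ (1 / 2 : ℝ) := by positivity
  have hnn := mul_nonneg hn1 hn2
  by_cases h0 : d1 D r z = r
  · -- everything is `r`
    have h1 : ρ = r := by omega
    refine (P2_le_one hx0 hx1 _ _ _).trans ?_
    rw [h0, h1, div_self hr0.ne', Real.one_rpow, Real.one_rpow, mul_one, mul_one]
    have : 0 ≤ C2 * 64 ^ (5 / 2 : ℝ) + C4 * 8 ^ (5 / 2 : ℝ) * C2 := by positivity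
    linarith
  · have hbd : ((d1 D r z : ℕ) : ℤ) = D.bd z := by
      unfold d1 at h0 ⊢
      omega
    generalize d1 D r z = m at *
    by_cases h : 64 * r < ρ
    · have hdR : r + 8 ≤ ρ / 4 := by omega
      have hRρ : ρ / 4 + r + 4 ≤ ρ := by omega
      have hAN : AN z r (ρ / 4) ⊆ D.edges := AN_sub.trans (blk_sub (by omega))
      have key : ∀ F : Finset Edg, F ⊆ D.edges → LG D B ρ F →
          XX z r (ρ / 4) F ∧ NX D z (ρ / 4) m F := by
        intro F hF hL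
        refine ⟨?_, hNB D hD F B hF z (ρ / 4) m ρ (by omega) (hB.trans (blk_mono (by omega))) hL⟩
        rcases hL with hL | hL
        · exact Or.inl (hV D hD F B hF z r (ρ / 4) ρ hr hdR hRρ (by omega) hB hL)
        · exact Or.inr (hW D hD F B hF z r (ρ / 4) ρ hr hdR hRρ (by omega) hB hL)
      have hdis : Disjoint (AN z r (ρ / 4)) (D.edges \ blk z (ρ / 4)) := by
        rw [Finset.disjoint_left]
        intro e he he'
        exact (Finset.mem_sdiff.1 he').2 (Finset.mem_sdiff.1 he).1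
      have s1 : P2 (fun _ => x) D.edges (LG D B ρ) (LG D B ρ) ≤
          P2 (fun _ => x) D.edges (fun F => XX z r (ρ / 4) F ∧ NX D z (ρ / 4) m F)
            (fun F => XX z r (ρ / 4) F ∧ NX D z (ρ / 4) m F) := H389NS.D0.P2_mono hρ' key key
      have s2 : P2 (fun _ => x) D.edges (fun F => XX z r (ρ / 4) F ∧ NX D z (ρ / 4) m F)
            (fun F => XX z r (ρ / 4) F ∧ NX D z (ρ / 4) m F) =
          P2 (fun _ => x) D.edges (XX z r (ρ / 4)) (XX z r (ρ / 4)) *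
            P2 (fun _ => x) D.edges (NX D z (ρ / 4) m) (NX D z (ρ / 4) m) :=
        H389NS.P2_indep hAN Finset.sdiff_subset hdis (fun F _ => XX_loc z r (ρ / 4) F)
          (fun F _ => XX_loc z r (ρ / 4) F)
          (fun F hF => NX_loc D z (ρ / 4) m F hF) (fun F hF => NX_loc D z (ρ / 4) m F hF)
      have s3 : P2 (fun _ => x) D.edges (XX z r (ρ / 4)) (XX z r (ρ / 4)) ≤
          C4 * (8 ^ (5 / 2 : ℝ) * ((r : ℝ) / ρ) ^ (5 / 2 : ℝ)) := by
        refine (h4 D.edges z r (ρ / 4) hr hdR hAN x hx0 hx1 hx).trans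
          (mul_le_mul_of_nonneg_left ?_ hC4.le)
        refine scale (by norm_num) hr0 ?_ hρ0 (by norm_num) ?_
        · exact_mod_cast (by omega : 0 < ρ / 4)
        · exact_mod_cast (by omega : ρ ≤ 8 * (ρ / 4))
      have s4 : P2 (fun _ => x) D.edges (NX D z (ρ / 4) m) (NX D z (ρ / 4) m) ≤
          C2 * ((ρ : ℝ) / m) ^ (1 / 2 : ℝ) := by
        refine (h2 D hD z (ρ / 4) m (by omega) (by omega) (by omega) x hx0 hx1
          (noise_mono hx1 (by omega) hx)).trans (mul_le_mul_of_nonneg_left ?_ hC2.le)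
        refine Real.rpow_le_rpow (by positivity) ?_ (by norm_num)
        refine div_le_div_of_nonneg_right ?_ hd0.le
        exact_mod_cast (by omega : ρ / 4 ≤ ρ)
      have p3 : 0 ≤ P2 (fun _ => x) D.edges (XX z r (ρ / 4)) (XX z r (ρ / 4)) :=
        H389NS.D0.P2_nonneg hρ' _ _
      have p4 : 0 ≤ P2 (fun _ => x) D.edges (NX D z (ρ / 4) m) (NX D z (ρ / 4) m) :=
        H389NS.D0.P2_nonneg hρ' _ _
      calc P2 (fun _ => x) D.edges (LG D B ρ) (LG D B ρ)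
          ≤ P2 (fun _ => x) D.edges (XX z r (ρ / 4)) (XX z r (ρ / 4)) *
            P2 (fun _ => x) D.edges (NX D z (ρ / 4) m) (NX D z (ρ / 4) m) := s1.trans s2.le
        _ ≤ (C4 * (8 ^ (5 / 2 : ℝ) * ((r : ℝ) / ρ) ^ (5 / 2 : ℝ))) *
            (C2 * ((ρ : ℝ) / m) ^ (1 / 2 : ℝ)) := mul_le_mul s3 s4 p4 (p3.trans s3)
        _ = C4 * 8 ^ (5 / 2 : ℝ) * C2 *
            (((r : ℝ) / ρ) ^ (5 / 2 : ℝ) * ((ρ : ℝ) / m) ^ (1 / 2 : ℝ)) := by ring
        _ ≤ _ := by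
            refine mul_le_mul_of_nonneg_right ?_ hnn
            have : 0 ≤ C2 * 64 ^ (5 / 2 : ℝ) := by positivity
            linarith
    · push Not at h
      have key : ∀ F : Finset Edg, F ⊆ D.edges → LG D B ρ F → NX D z r m F :=
        fun F hF hL => hNB D hD F B hF z r m ρ hr hB hL
      have s1 : P2 (fun _ => x) D.edges (LG D B ρ) (LG D B ρ) ≤
          P2 (fun _ => x) D.edges (NX D z r m) (NX D z r m) := H389NS.D0.P2_mono hρ' key key
      have s4 : P2 (fun _ => x) D.edges (NX D z r m) (NX D z r m) ≤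
          C2 * ((ρ : ℝ) / m) ^ (1 / 2 : ℝ) := by
        refine (h2 D hD z r m (by omega) (by omega) (by omega) x hx0 hx1 hx).trans
          (mul_le_mul_of_nonneg_left ?_ hC2.le)
        refine Real.rpow_le_rpow (by positivity) ?_ (by norm_num)
        refine div_le_div_of_nonneg_right ?_ hd0.le
        exact_mod_cast hrρ
      have h5 : 1 ≤ (64 : ℝ) ^ (5 / 2 : ℝ) * ((r : ℝ) / ρ) ^ (5 / 2 : ℝ) := by
        refine one_le (by norm_num) hr0 hρ0 (by norm_num) ?_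
        exact_mod_cast h
      calc P2 (fun _ => x) D.edges (LG D B ρ) (LG D B ρ)
          ≤ C2 * ((ρ : ℝ) / m) ^ (1 / 2 : ℝ) * 1 := by
            rw [mul_one]
            exact s1.trans s4
        _ ≤ C2 * ((ρ : ℝ) / m) ^ (1 / 2 : ℝ) *
            ((64 : ℝ) ^ (5 / 2 : ℝ) * ((r : ℝ) / ρ) ^ (5 / 2 : ℝ)) :=
            mul_le_mul_of_nonneg_left h5 (by positivity)
        _ = C2 * 64 ^ (5 / 2 : ℝ) *
            (((r : ℝ) / ρ) ^ (5 / 2 : ℝ) * ((ρ : ℝ) / m) ^ (1 / 2 : ℝ)) := by ring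
        _ ≤ _ := by
            refine mul_le_mul_of_nonneg_right ?_ hnn
            have : 0 ≤ C4 * 8 ^ (5 / 2 : ℝ) * C2 := by positivity
            linarith

/-- PN/CH -/
theorem main : S_P4 → S_LGV → S_LGW → S_NXB → S_NX2 → S_SIDE → S_VF2 → S_WF2 → S_VW2 → S_WW2 →
    S_Y2 → S_CD → S_CE1 → S_EV → S_EW → S_A1E → S_CH := by
  intro hP4 hV hW hNB hN2 hSI hVF hWF hVW hWW hY hCD hCE hEV hEW hA κ hκ
  obtain ⟨Cb, hCb, hb⟩ := bulk hV hW hP4 hNB hN2
  obtain ⟨Ci, hCi, hi⟩ := inner hV hW hP4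
  obtain ⟨Cm, hCm, hm⟩ := middle hSI hVF hWF hVW hWW hY κ hκ
  obtain ⟨Co, hCo, ho⟩ := outer hCD hCE hEV hEW hA κ hκ
  refine ⟨Cb + Ci * Cm + Ci * Cm * Co, by positivity, ?_⟩
  intro n D hn hS hFar z B r ρ hz hr hrρ hρn hB x hx0 hx1 hx
  have hρ' : ∀ e ∈ D.edges, 0 ≤ (fun _ : Edg => x) e ∧ (fun _ : Edg => x) e ≤ 1 :=
    fun _ _ => ⟨hx0, hx1.le⟩
  have h12 : d1 D r z ≤ d2 D r z := by
    have h1 := bd_le_qd hS.ok hz
    unfold d1 d2
    omega
  have hdis : Disjoint (blk z (d1 D r z)) (blk z (d2 D r z) \ blk z (d1 D r z)) :=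
    Finset.disjoint_sdiff
  have hr0 : (0 : ℝ) < r := by exact_mod_cast hr
  have hρ0 : (0 : ℝ) < ρ := by exact_mod_cast (by omega : 0 < ρ)
  refine ⟨fun h => ?_, fun h h' => ?_, fun h => ?_⟩
  · refine (hb D hS.ok z B r ρ hr hrρ hB h x hx0 hx1 hx).trans ?_
    refine mul_le_mul_of_nonneg_right ?_ (by positivity)
    have : 0 ≤ Ci * Cm + Ci * Cm * Co := by positivity
    linarith
  · obtain ⟨E1, l1, g1, p1⟩ := hi D hS.ok z B r ρ hr hB h x hx0 hx1 hx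
    obtain ⟨E2, l2, g2, p2⟩ := hm n D hn hS z B r ρ ρ hz hr hB h le_rfl h' x hx0 hx1 hx
    have s1 : P2 (fun _ => x) D.edges (LG D B ρ) (LG D B ρ) ≤
        P2 (fun _ => x) D.edges (fun F => E1 F ∧ E2 F) (fun F => E1 F ∧ E2 F) :=
      H389NS.D0.P2_mono hρ' (fun F hF hL => ⟨g1 F hF hL, g2 F hF hL⟩)
        (fun F hF hL => ⟨g1 F hF hL, g2 F hF hL⟩)
    rw [two hdis l1 l2] at s1
    have q2 : 0 ≤ P2 (fun _ => x) D.edges E2 E2 := H389NS.D0.P2_nonneg hρ' _ _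
    have s2 := mul_le_mul p1 p2 q2 (by positivity)
    refine (s1.trans s2).trans ?_
    have e : Ci * ((r : ℝ) / d1 D r z) ^ (5 / 2 : ℝ) * (Cm * ((d1 D r z : ℝ) / ρ) ^ (11 / 6 : ℝ)) =
        Ci * Cm * (((r : ℝ) / d1 D r z) ^ (5 / 2 : ℝ) * ((d1 D r z : ℝ) / ρ) ^ (11 / 6 : ℝ)) := by
      ring
    rw [e]
    refine mul_le_mul_of_nonneg_right ?_ (by positivity)
    have : 0 ≤ Cb + Ci * Cm * Co := by positivity
    linarith
  · obtain ⟨E1, l1, g1, p1⟩ := hi D hS.ok z B r ρ hr hB (h12.trans h) x hx0 hx1 hx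
    obtain ⟨E2, l2, g2, p2⟩ := hm n D hn hS z B r ρ (d2 D r z) hz hr hB h12 h le_rfl x hx0 hx1 hx
    obtain ⟨E3, U, hU, l3, g3, p3⟩ := ho n D hn hS hFar z B r ρ hr hB h hρn x hx0 hx1
    have s1 : P2 (fun _ => x) D.edges (LG D B ρ) (LG D B ρ) ≤
        P2 (fun _ => x) D.edges (fun F => (E1 F ∧ E2 F) ∧ E3 F)
          (fun F => (E1 F ∧ E2 F) ∧ E3 F) :=
      H389NS.D0.P2_mono hρ' (fun F hF hL => ⟨⟨g1 F hF hL, g2 F hF hL⟩, g3 F hF hL⟩)
        (fun F hF hL => ⟨⟨g1 F hF hL, g2 F hF hL⟩, g3 F hF hL⟩)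
    have hU2 : Disjoint (blk z (d1 D r z) ∪ (blk z (d2 D r z) \ blk z (d1 D r z))) U := by
      refine hU.mono_left (Finset.union_subset (blk_mono h12) Finset.sdiff_subset)
    rw [two hU2 (l1.and l2) l3, two hdis l1 l2] at s1
    have q2 : 0 ≤ P2 (fun _ => x) D.edges E2 E2 := H389NS.D0.P2_nonneg hρ' _ _
    have q3 : 0 ≤ P2 (fun _ => x) D.edges E3 E3 := H389NS.D0.P2_nonneg hρ' _ _
    have s2 := mul_le_mul (mul_le_mul p1 p2 q2 (by positivity)) p3 q3 (by positivity)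
    refine (s1.trans s2).trans ?_
    have e : Ci * ((r : ℝ) / d1 D r z) ^ (5 / 2 : ℝ) *
        (Cm * ((d1 D r z : ℝ) / d2 D r z) ^ (11 / 6 : ℝ)) *
        (Co * ((d2 D r z : ℝ) / ρ) ^ (2 / 3 : ℝ)) =
        Ci * Cm * Co * (((r : ℝ) / d1 D r z) ^ (5 / 2 : ℝ) *
          ((d1 D r z : ℝ) / d2 D r z) ^ (11 / 6 : ℝ) * ((d2 D r z : ℝ) / ρ) ^ (2 / 3 : ℝ)) := by
      ring
    rw [e]
    refine mul_le_mul_of_nonneg_right ?_ (by positivity)
    have : 0 ≤ Cb + Ci * Cm := by positivity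
    linarith

end Pool.Agent.N853.PN.CH
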